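import Pool.Agent.Y751.SW.Lin
import Pool.Agent.Y677.RSZ.FinQuad
import Pool.Agent.TH977.PW.Final

/-!
# Typical points: regular at all lengths, with progressions in all windows
-/

set_option autoImplicit false

open Finset Filter

namespace Pool.Agent.Y751.SW

open Pool.Agent.TH977.PW (N N_mono Irregular RightOrder badScales ConstantDensity)
open Pool.Agent.Y677.RSZ (InProg Outside)

/-- `m` is a typical point of `A`: all windows `(m - s, m + t]`, `s, t ≤ Y`, of length at least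
`log ^ k X / c` contain the right order of elements of `A`; at all but at most `B` of the scales
`log ^ k X ≤ 2 ^ j ≤ Y` the set `A` has, up to `η`, a constant density on both sides of `m` up to the
distance `2 ^ j`; and in all windows `(m - s, m + t]`, `s, t ≤ Y`, of length at least `log ^ B X` all but
a proportion `η` of the elements of `A` are terms of `l`-term arithmetic progressions of elements of `A`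
in the same window with difference at most `log ^ B X`. -/
def Typical (A : Set ℕ) (k l : ℕ) (c η : ℝ) (B X Y m : ℕ) : Prop :=
  RightOrder A k c X Y m ∧ badScales A k c η X Y m ≤ B ∧
  ∀ s t : ℕ, s ≤ Y → t ≤ Y → Real.log X ^ B ≤ (s : ℝ) + t →
    (N (Outside A l (Real.log X ^ B) (m - s) (m + t)) (m - s) (m + t) : ℝ) ≤
      η * N A (m - s) (m + t)

/-- the typical points of `A` that are elements of `A` -/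
def Typ (A : Set ℕ) (k l : ℕ) (c η : ℝ) (B X Y : ℕ) : Set ℕ :=
  {m | m ∈ A ∧ Typical A k l c η B X Y m}

/-- the elements of `A` that are not typical points of `A` -/
def Exc (A : Set ℕ) (k l : ℕ) (c η : ℝ) (B X Y : ℕ) : Set ℕ :=
  {m | m ∈ A ∧ ¬ Typical A k l c η B X Y m}

open Classical in
lemma N_union (A A' A'' : Set ℕ) (a b : ℕ) (h : ∀ m ∈ A, m ∈ A' ∨ m ∈ A'') :
    N A a b ≤ N A' a b + N A'' a b := by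
  unfold N
  refine (card_le_card ?_).trans (card_union_le _ _)
  intro m hm
  rw [mem_filter] at hm
  rw [mem_union, mem_filter, mem_filter]
  rcases h m hm.2 with h1 | h1
  · exact Or.inl ⟨hm.1, h1⟩
  · exact Or.inr ⟨hm.1, h1⟩

lemma exc_sub (A : Set ℕ) (k l : ℕ) (c η : ℝ) (B₁ B₂ X Y : ℕ) (hX : 1 ≤ Real.log X) :
    N (Exc A k l c η (max B₁ B₂) X Y) X (X + Y) ≤
      N (Bad A k l c η B₁ X Y) X (X + Y) + N (Irregular A k c η B₂ X Y) X (X + Y) := by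
  apply N_union
  intro m hm
  obtain ⟨hmA, hm2⟩ := hm
  by_cases h1 : Good A k l c η B₁ X Y m
  · by_cases h2 : RightOrder A k c X Y m ∧ badScales A k c η X Y m ≤ B₂
    · exfalso
      apply hm2
      refine ⟨h2.1, h2.2.trans (le_max_right _ _), fun s t hs ht hst => ?_⟩
      have hpow : Real.log X ^ B₁ ≤ Real.log X ^ (max B₁ B₂) :=
        pow_le_pow_right₀ hX (le_max_left _ _)
      refine le_trans ?_ (h1.1 s t hs ht (hpow.trans hst)).2.2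
      have h3 : N (Outside A l (Real.log X ^ (max B₁ B₂)) (m - s) (m + t)) (m - s) (m + t) ≤
          N (Outside A l (Real.log X ^ B₁) (m - s) (m + t)) (m - s) (m + t) := by
        apply N_mono
        rintro n _ _ ⟨hn1, hn2⟩
        refine ⟨hn1, fun h => hn2 ?_⟩
        obtain ⟨u, d, hd1, hd2, h4⟩ := h
        exact ⟨u, d, hd1, hd2.trans hpow, h4⟩
      exact_mod_cast h3
    · exact Or.inr ⟨hmA, h2⟩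
  · exact Or.inl ⟨hmA, h1⟩

/-- the general theorem -/
theorem both (R Al : ℕ → Set ℕ) (hAR : ∀ r, Al r ⊆ R r) (k : ℕ) (θ : ℝ) (hθ : 0 < θ) (E' : ℕ → Prop)
    (hF : ∃ r0 : ℕ, 2 ≤ r0 ∧ ∀ r : ℕ, r0 ≤ r →
      (∃ κ : ℝ, 0 < κ ∧ ∀ᶠ X : ℕ in atTop, ∀ Y : ℕ, (X : ℝ) ^ θ ≤ Y → Y ≤ X →
        κ * Y / Real.log X ^ k ≤ N (Al r) X (X + Y)) ∧
      ∀ ε : ℝ, 0 < ε → ∃ c : ℝ, 0 < c ∧ ∀ δ : ℝ, 0 < δ → ∃ B : ℕ,
        ∀ᶠ X : ℕ in atTop, ∀ Y : ℕ, (X : ℝ) ^ θ ≤ Y → 2 * Y ≤ X →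
          ∀ A : Set ℕ, A ⊆ R r →
          (N (Irregular A k c δ B X Y) X (X + Y) : ℝ) ≤ ε * Y / Real.log X ^ k)
    (hN : ∃ r0 : ℕ, 2 ≤ r0 ∧ ∀ r : ℕ, r0 ≤ r → E' r ∧
      ∀ l : ℕ, 2 ≤ l → ∀ ε : ℝ, 0 < ε → ∃ B : ℕ, ∀ᶠ X : ℕ in atTop, ∀ Y : ℕ,
        (X : ℝ) ^ θ ≤ Y → Y ≤ X → ∀ A : Set ℕ, A ⊆ R r →
          (N (Outside A l (Real.log X ^ B) X (X + Y)) X (X + Y) : ℝ) ≤ ε * Y / Real.log X ^ k) :
    ∃ r0 : ℕ, 2 ≤ r0 ∧ ∀ r : ℕ, r0 ≤ r →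
      (∃ κ c : ℝ, 0 < κ ∧ 0 < c ∧ ∀ (l : ℕ) (η : ℝ), 2 ≤ l → 0 < η → ∃ B : ℕ,
        ∀ᶠ X : ℕ in atTop, ∀ Y : ℕ, (X : ℝ) ^ θ ≤ Y → 4 * Y ≤ X →
          κ * Y / Real.log X ^ k ≤ N (Typ (Al r) k l c η B X Y) X (X + Y)) ∧
      ∀ ε : ℝ, 0 < ε → ∃ c : ℝ, 0 < c ∧ ∀ (l : ℕ) (η : ℝ), 2 ≤ l → 0 < η → ∃ B : ℕ,
        ∀ᶠ X : ℕ in atTop, ∀ Y : ℕ, (X : ℝ) ^ θ ≤ Y → 4 * Y ≤ X → ∀ A : Set ℕ, A ⊆ R r →
          (N (Exc A k l c η B X Y) X (X + Y) : ℝ) ≤ ε * Y / Real.log X ^ k := by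
  obtain ⟨ra, hra, ha⟩ := hF
  obtain ⟨rb, hrb, hb⟩ := hN
  refine ⟨max ra rb, hra.trans (le_max_left _ _), fun r hr => ?_⟩
  obtain ⟨h1, h2⟩ := ha r ((le_max_left _ _).trans hr)
  obtain ⟨_, h3⟩ := hb r ((le_max_right _ _).trans hr)
  have h5 : ∀ ε : ℝ, 0 < ε → ∃ c : ℝ, 0 < c ∧ ∀ (l : ℕ) (η : ℝ), 2 ≤ l → 0 < η → ∃ B : ℕ,
        ∀ᶠ X : ℕ in atTop, ∀ Y : ℕ, (X : ℝ) ^ θ ≤ Y → 4 * Y ≤ X → ∀ A : Set ℕ, A ⊆ R r →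
          (N (Exc A k l c η B X Y) X (X + Y) : ℝ) ≤ ε * Y / Real.log X ^ k := by
    intro ε hε
    obtain ⟨c, hc, h4⟩ := h2 (ε / 2 / 2) (by positivity)
    refine ⟨c, hc, fun l η hl hη => ?_⟩
    obtain ⟨B₁, hB₁⟩ := scales (R r) k l θ (h3 l hl) hθ (ε / 2) c η (by positivity) hc hη (h4 η hη)
    obtain ⟨B₂, hB₂⟩ := h4 η hη
    refine ⟨max B₁ B₂, ?_⟩
    filter_upwards [hB₁, hB₂, (Real.tendsto_log_atTop.comp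
      tendsto_natCast_atTop_atTop).eventually_ge_atTop 1] with X hX1 hX2 hX3 Y hY1 hY2 A hA
    simp only [Function.comp_apply] at hX3
    have h6 := hX1 Y hY1 hY2 A hA
    have h7 := hX2 Y hY1 (by omega) A hA
    have h8 : (N (Exc A k l c η (max B₁ B₂) X Y) X (X + Y) : ℝ) ≤
        N (Bad A k l c η B₁ X Y) X (X + Y) + N (Irregular A k c η B₂ X Y) X (X + Y) := by
      exact_mod_cast exc_sub A k l c η B₁ B₂ X Y hX3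
    have h9 : 0 ≤ ε * Y / Real.log X ^ k := by positivity
    have h10 : ε * (Y : ℝ) / Real.log X ^ k = ε / 2 * Y / Real.log X ^ k +
        ε / 2 / 2 * Y / Real.log X ^ k + ε / 4 * Y / Real.log X ^ k := by ring
    have h11 : 0 ≤ ε / 4 * Y / Real.log X ^ k := by positivity
    linarith
  refine ⟨?_, h5⟩
  obtain ⟨κ, hκ, h6⟩ := h1
  obtain ⟨c, hc, h7⟩ := h5 (κ / 2) (by positivity)
  refine ⟨κ / 2, c, by positivity, hc, fun l η hl hη => ?_⟩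
  obtain ⟨B, h8⟩ := h7 l η hl hη
  refine ⟨B, ?_⟩
  filter_upwards [h6, h8] with X hX1 hX4 Y hY1 hY2
  have h9 := hX1 Y hY1 (by omega)
  have h10 := hX4 Y hY1 hY2 (Al r) (hAR r)
  have h11 : (N (Al r) X (X + Y) : ℝ) ≤ N (Typ (Al r) k l c η B X Y) X (X + Y) +
      N (Exc (Al r) k l c η B X Y) X (X + Y) := by
    have : N (Al r) X (X + Y) ≤ N (Typ (Al r) k l c η B X Y) X (X + Y) +
      N (Exc (Al r) k l c η B X Y) X (X + Y) := by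
      apply N_union
      intro m hm
      by_cases h : Typical (Al r) k l c η B X Y m
      · exact Or.inl ⟨hm, h⟩
      · exact Or.inr ⟨hm, h⟩
    exact_mod_cast this
  have h12 : κ * (Y : ℝ) / Real.log X ^ k =
      κ / 2 * Y / Real.log X ^ k + κ / 2 * Y / Real.log X ^ k := by ring
  linarith

open Polynomial in
/-- systems of polynomials -/
theorem sys_both {ι : Type} [Fintype ι] [Nonempty ι] (f : ι → ℤ[X])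
    (hf : Pool.Agent.W123.RU.Poly.Sys f)
    (R Al : ℕ → Set ℕ) (hAR : ∀ r, Al r ⊆ R r) (k : ℕ) (hk : Fintype.card ι = k)
    (hR : ∀ r m : ℕ, 2 ≤ r → m ∈ R r → Pool.Agent.TH977.PW.Rough f r m)
    (hAl : ∀ r m : ℕ, 2 ≤ r → Pool.Agent.TH977.PW.Rough f r m → Pool.Agent.TH977.PW.Few f r m →
      m ∈ Al r) (θ : ℝ) (hθ : 0 < θ) (hθ1 : θ ≤ 1) :
    ∃ r0 : ℕ, 2 ≤ r0 ∧ ∀ r : ℕ, r0 ≤ r →
      (∃ κ c : ℝ, 0 < κ ∧ 0 < c ∧ ∀ (l : ℕ) (η : ℝ), 2 ≤ l → 0 < η → ∃ B : ℕ,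
        ∀ᶠ X : ℕ in atTop, ∀ Y : ℕ, (X : ℝ) ^ θ ≤ Y → 4 * Y ≤ X →
          κ * Y / Real.log X ^ k ≤ N (Typ (Al r) k l c η B X Y) X (X + Y)) ∧
      ∀ ε : ℝ, 0 < ε → ∃ c : ℝ, 0 < c ∧ ∀ (l : ℕ) (η : ℝ), 2 ≤ l → 0 < η → ∃ B : ℕ,
        ∀ᶠ X : ℕ in atTop, ∀ Y : ℕ, (X : ℝ) ^ θ ≤ Y → 4 * Y ≤ X → ∀ A : Set ℕ, A ⊆ R r →
          (N (Exc A k l c η B X Y) X (X + Y) : ℝ) ≤ ε * Y / Real.log X ^ k :=
  both R Al hAR k θ hθ _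
    (Pool.Agent.TH977.PW.final f hf R Al k hk hR hAl θ hθ hθ1)
    (Pool.Agent.Y677.RSZ.narrow_final f hf R Al k hk hR hAl θ hθ hθ1)

/-- linear forms -/
theorem lin_both {ι : Type} [Fintype ι] [Nonempty ι] (a : ι → ℕ) (b : ι → ℤ) (ha : ∀ i, 0 < a i)
    (hab : ∀ i, IsCoprime (a i : ℤ) (b i)) (hinj : ∀ i j, a i = a j → b i = b j → i = j)
    (hadm : ∀ p : ℕ, p.Prime → ∃ m : ℕ, ∀ i, ¬ (p : ℤ) ∣ (a i : ℤ) * m + b i)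
    (R Al : ℕ → Set ℕ) (hAR : ∀ r, Al r ⊆ R r) (k : ℕ) (hk : Fintype.card ι = k)
    (hR : ∀ r m : ℕ, 2 ≤ r → m ∈ R r → ∀ i, ∀ p : ℕ, p.Prime → (p : ℤ) ∣ (a i : ℤ) * m + b i →
      (m : ℝ) ^ (1 / (r : ℝ)) < (p : ℝ))
    (hAl : ∀ r m : ℕ, 2 ≤ r → (∀ i, ∀ p : ℕ, p.Prime → (p : ℤ) ∣ (a i : ℤ) * m + b i →
      (m : ℝ) ^ (1 / (r : ℝ)) < (p : ℝ)) →
      (∀ i, ((a i : ℤ) * m + b i).natAbs.primeFactorsList.length ≤ r) → m ∈ Al r)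
    (θ : ℝ) (hθ : 0 < θ) (hθ1 : θ ≤ 1) :
    ∃ r0 : ℕ, 2 ≤ r0 ∧ ∀ r : ℕ, r0 ≤ r →
      (∃ κ c : ℝ, 0 < κ ∧ 0 < c ∧ ∀ (l : ℕ) (η : ℝ), 2 ≤ l → 0 < η → ∃ B : ℕ,
        ∀ᶠ X : ℕ in atTop, ∀ Y : ℕ, (X : ℝ) ^ θ ≤ Y → 4 * Y ≤ X →
          κ * Y / Real.log X ^ k ≤ N (Typ (Al r) k l c η B X Y) X (X + Y)) ∧
      ∀ ε : ℝ, 0 < ε → ∃ c : ℝ, 0 < c ∧ ∀ (l : ℕ) (η : ℝ), 2 ≤ l → 0 < η → ∃ B : ℕ,
        ∀ᶠ X : ℕ in atTop, ∀ Y : ℕ, (X : ℝ) ^ θ ≤ Y → 4 * Y ≤ X → ∀ A : Set ℕ, A ⊆ R r →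
          (N (Exc A k l c η B X Y) X (X + Y) : ℝ) ≤ ε * Y / Real.log X ^ k :=
  both R Al hAR k θ hθ _
    (Pool.Agent.TH977.PW.final_lin a b ha hab hinj hadm R Al k hk hR hAl θ hθ hθ1)
    (Pool.Agent.Y677.RSZ.narrow_lin a b ha hab hinj hadm R Al k hk hR hAl θ hθ hθ1)

theorem quad_both (a b c : ℤ) (ha : 0 < a)
    (hg : ∀ p : ℕ, p.Prime → ¬ ((p : ℤ) ∣ a ∧ (p : ℤ) ∣ b ∧ (p : ℤ) ∣ c))
    (hD : ¬ IsSquare (b ^ 2 - 4 * a * c)) (hpar : ¬ (Even (a + b) ∧ Even c))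
    (R Al : ℕ → Set ℕ) (hAR : ∀ r, Al r ⊆ R r)
    (hR : ∀ r m : ℕ, 2 ≤ r → m ∈ R r → ∀ p : ℕ, p.Prime → (p : ℤ) ∣ a * (m : ℤ) ^ 2 + b * m + c →
      (m : ℝ) ^ (1 / (r : ℝ)) < (p : ℝ))
    (hAl : ∀ r m : ℕ, 2 ≤ r → (∀ p : ℕ, p.Prime → (p : ℤ) ∣ a * (m : ℤ) ^ 2 + b * m + c →
      (m : ℝ) ^ (1 / (r : ℝ)) < (p : ℝ)) →
      (a * (m : ℤ) ^ 2 + b * m + c).natAbs.primeFactorsList.length ≤ r → m ∈ Al r)
    (θ : ℝ) (hθ : 0 < θ) (hθ1 : θ ≤ 1) :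
    ∃ r0 : ℕ, 2 ≤ r0 ∧ ∀ r : ℕ, r0 ≤ r →
      (∃ κ c : ℝ, 0 < κ ∧ 0 < c ∧ ∀ (l : ℕ) (η : ℝ), 2 ≤ l → 0 < η → ∃ B : ℕ,
        ∀ᶠ X : ℕ in atTop, ∀ Y : ℕ, (X : ℝ) ^ θ ≤ Y → 4 * Y ≤ X →
          κ * Y / Real.log X ^ 1 ≤ N (Typ (Al r) 1 l c η B X Y) X (X + Y)) ∧
      ∀ ε : ℝ, 0 < ε → ∃ c : ℝ, 0 < c ∧ ∀ (l : ℕ) (η : ℝ), 2 ≤ l → 0 < η → ∃ B : ℕ,
        ∀ᶠ X : ℕ in atTop, ∀ Y : ℕ, (X : ℝ) ^ θ ≤ Y → 4 * Y ≤ X → ∀ A : Set ℕ, A ⊆ R r →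
          (N (Exc A 1 l c η B X Y) X (X + Y) : ℝ) ≤ ε * Y / Real.log X ^ 1 := by
  obtain ⟨r0, hr0, h⟩ := Pool.Agent.Y175.PW.final_quad a b c ha hg hD hpar R Al hR hAl θ hθ hθ1
  exact both R Al hAR 1 θ hθ _ ⟨r0, hr0, fun r hr => by
      have h1 := h r hr
      simpa only [pow_one] using h1⟩
    (Pool.Agent.Y677.RSZ.narrow_quad a b c ha hg hD hpar R Al hR hAl θ hθ hθ1)

end Pool.Agent.Y751.SW
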