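import Pool.Agent.Y751.SI.Loc
import Pool.Agent.Y677.RSZ.Fin

/-!
# All windows around almost all elements of arbitrary subsets of sifted sets
-/

set_option autoImplicit false

open Finset Filter

namespace Pool.Agent.Y751.SW

open Pool.Agent.TH977.PW (N N_mono Irregular RightOrder badScales)
open Pool.Agent.Y677.RSZ (InProg Outside)

/-- All windows `(m - s, m + t]`, `s, t ≤ Y`, of length at least `log ^ B X` contain the right order of
elements of `A`, and all but a proportion `η` of these are terms of `l`-term arithmetic progressions of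
elements of `A` in the same window with difference at most `log ^ B X`; moreover, at all but at most `B`
of the scales `log ^ k X ≤ 2 ^ j ≤ Y` the set `A` has, up to `η`, a constant density between `c` and `1 / c`
(times `1 / log ^ k X`) on both sides of `m` up to the distance `2 ^ j`. -/
def Good (A : Set ℕ) (k l : ℕ) (c η : ℝ) (B X Y m : ℕ) : Prop :=
  (∀ s t : ℕ, s ≤ Y → t ≤ Y → Real.log X ^ B ≤ (s : ℝ) + t →
    c * (s + t) / Real.log X ^ k ≤ N A (m - s) (m + t) ∧
    (N A (m - s) (m + t) : ℝ) ≤ (s + t) / (c * Real.log X ^ k) ∧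
    (N (Outside A l (Real.log X ^ B) (m - s) (m + t)) (m - s) (m + t) : ℝ) ≤
      η * N A (m - s) (m + t)) ∧
  badScales A k c η X Y m ≤ B

/-- The elements of `A` without this property. -/
def Bad (A : Set ℕ) (k l : ℕ) (c η : ℝ) (B X Y : ℕ) : Set ℕ :=
  {m | m ∈ A ∧ ¬ Good A k l c η B X Y m}

open Classical in
/-- The elements of a window which are not in progressions of the window are few. -/
theorem window (A : Set ℕ) (l : ℕ) (D₀ D : ℝ) (hD0 : 0 ≤ D₀) (hD : D₀ ≤ D) (a₀ b₀ a b : ℕ)
    (ha : a₀ ≤ a) (hb : b ≤ b₀) :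
    (N (Outside A l D a b) a b : ℝ) ≤ N (Outside A l D₀ a₀ b₀) a b + 2 * (l * D₀) := by
  obtain ⟨w, hw⟩ : ∃ w : ℕ, w = l * ⌊D₀⌋₊ := ⟨_, rfl⟩
  have h1 : N (Outside A l D a b) a b ≤ N (Outside A l D₀ a₀ b₀) a b + 2 * w := by
    unfold N
    calc ((Ioc a b).filter (fun m => m ∈ Outside A l D a b)).card ≤
          ((Ioc a b).filter (fun m => m ∈ Outside A l D₀ a₀ b₀) ∪ (Ioc a (a + w) ∪ Ioc (b - w) b)).card := by
          apply card_le_card
          intro n hn
          rw [mem_filter, mem_Ioc] at hn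
          rw [mem_union, mem_filter, mem_union, mem_Ioc, mem_Ioc, mem_Ioc]
          by_contra hcon
          push Not at hcon
          obtain ⟨h1, h2, h3⟩ := hcon
          have h4 : a + w < n := by
            by_contra h
            have := h2 hn.1.1
            omega
          have h5 : n + w ≤ b := by
            by_contra h
            have := h3 (by omega)
            omega
          apply hn.2.2
          have h6 := h1 hn.1
          unfold Outside at h6
          rw [Set.mem_ofPred_eq, not_and, not_not] at h6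
          obtain ⟨u, d, hd1, hd2, hud, i₀, hi₀, hn0⟩ := h6 hn.2.1
          have hdf : d ≤ ⌊D₀⌋₊ := Nat.le_floor hd2
          refine ⟨u, d, hd1, hd2.trans hD, fun i hi => ⟨(hud i hi).1, ?_, ?_⟩, i₀, hi₀, hn0⟩
          · have h7 : i₀ * d ≤ w := by
              rw [hw]
              exact Nat.mul_le_mul hi₀.le hdf
            omega
          · have h7 : i * d ≤ w := by
              rw [hw]
              exact Nat.mul_le_mul hi.le hdf
            omega
      _ ≤ ((Ioc a b).filter (fun m => m ∈ Outside A l D₀ a₀ b₀)).card +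
          ((Ioc a (a + w)).card + (Ioc (b - w) b).card) :=
          (card_union_le _ _).trans (Nat.add_le_add_left (card_union_le _ _) _)
      _ ≤ _ := by
          rw [Nat.card_Ioc, Nat.card_Ioc]
          omega
  have h2 : (w : ℝ) ≤ l * D₀ := by
    rw [hw]
    push_cast
    exact mul_le_mul_of_nonneg_left (Nat.floor_le hD0) (Nat.cast_nonneg _)
  have h3 : ((N (Outside A l D a b) a b : ℕ) : ℝ) ≤
      ((N (Outside A l D₀ a₀ b₀) a b + 2 * w : ℕ) : ℝ) := Nat.cast_le.2 h1
  push_cast at h3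
  linarith

open Classical in
/-- The elements of `A` with a window containing too many elements of `O` are few. -/
theorem maximal (A O : Set ℕ) (k : ℕ) (c κ : ℝ) (L : ℝ) (X Y : ℕ) (hc : 0 < c) (hκ : 0 < κ)
    (hl0 : 1 ≤ Real.log X) (hYX : 4 * Y ≤ X)
    (hL1 : 1 ≤ L) (hL : Real.log X ^ k ≤ c * L) (hLY : L ≤ 2 * Y) (E : Finset ℕ)
    (hE : ∀ m ∈ E, X < m ∧ m ≤ X + Y ∧ m ∈ A ∧ RightOrder A k c X Y m ∧ ∃ s t : ℕ, s ≤ Y ∧ t ≤ Y ∧
      L ≤ (s : ℝ) + t ∧ κ * (s + t) / Real.log X ^ k ≤ N O (m - s) (m + t)) :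
    (E.card : ℝ) ≤ 8 / (c * κ) * N O (X - Y) (X + 2 * Y) := by
  have hlk : 0 < Real.log X ^ k := by positivity
  have hch : ∀ m : ℕ, ∃ s t : ℕ, m ∈ E → s ≤ Y ∧ t ≤ Y ∧
      L ≤ (s : ℝ) + t ∧ κ * (s + t) / Real.log X ^ k ≤ N O (m - s) (m + t) := by
    intro m
    by_cases hm : m ∈ E
    · obtain ⟨_, _, _, _, s, t, h⟩ := hE m hm
      exact ⟨s, t, fun _ => h⟩
    · exact ⟨0, 0, fun h => absurd h hm⟩
  choose s t hP using hch
  have hlen : ∀ m ∈ E, 1 ≤ s m + t m := by
    intro m hm
    have h1 := (hP m hm).2.2.1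
    have h3 : ((1 : ℕ) : ℝ) ≤ ((s m + t m : ℕ) : ℝ) := by
      push_cast
      linarith
    exact_mod_cast h3
  obtain ⟨u, hu, hd, hcv⟩ := Pool.Agent.Y751.SI.vit E s t hlen (fun m hm => by
    have h1 := (hP m hm).1
    have h2 := (hE m hm).1
    omega)
  have h1 : E ⊆ u.biUnion (fun b => (Ioc (b - min (3 * (s b + t b) + 1) Y)
      (b + min (3 * (s b + t b) + 1) Y)).filter (fun m => m ∈ A)) := by
    intro m hm
    obtain ⟨b, hb, h1, h2⟩ := hcv m hm
    have h3 := hE m hm
    have h4 := hE b (hu hb)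
    rw [mem_biUnion]
    refine ⟨b, hb, ?_⟩
    rw [mem_filter, mem_Ioc]
    refine ⟨⟨?_, ?_⟩, h3.2.2.1⟩ <;> omega
  have h2 : (E.card : ℝ) ≤ ∑ b ∈ u, (N A (b - min (3 * (s b + t b) + 1) Y)
      (b + min (3 * (s b + t b) + 1) Y) : ℝ) := by
    have := (card_le_card h1).trans card_biUnion_le
    have h3 : (E.card : ℝ) ≤ ((∑ b ∈ u, N A (b - min (3 * (s b + t b) + 1) Y)
      (b + min (3 * (s b + t b) + 1) Y) : ℕ) : ℝ) := Nat.cast_le.2 this
    rw [Nat.cast_sum] at h3
    exact h3
  have h3 : ∀ b ∈ u, (N A (b - min (3 * (s b + t b) + 1) Y)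
      (b + min (3 * (s b + t b) + 1) Y) : ℝ) ≤ 8 / (c * κ) * N O (b - s b) (b + t b) := by
    intro b hb
    have h3 := (hE b (hu hb)).2.2.2.1
    have h4 := hP b (hu hb)
    have hsb : (1 : ℝ) ≤ (s b : ℝ) + t b := by
      have := hlen b (hu hb)
      exact_mod_cast this
    have hmin : Real.log X ^ k ≤
        c * (((min (3 * (s b + t b) + 1) Y : ℕ) : ℝ) + ((min (3 * (s b + t b) + 1) Y : ℕ) : ℝ)) := by
      refine hL.trans (mul_le_mul_of_nonneg_left ?_ hc.le)
      rcases le_total (3 * (s b + t b) + 1) Y with h | h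
      · rw [min_eq_left h]
        refine h4.2.2.1.trans ?_
        push_cast
        linarith
      · rw [min_eq_right h]
        linarith
    have h5 := (h3 (min (3 * (s b + t b) + 1) Y) (min (3 * (s b + t b) + 1) Y) (min_le_right _ _)
      (min_le_right _ _) hmin).2
    refine h5.trans ?_
    have h6 : ((min (3 * (s b + t b) + 1) Y : ℕ) : ℝ) ≤ 3 * ((s b : ℝ) + t b) + 1 := by
      have : min (3 * (s b + t b) + 1) Y ≤ 3 * (s b + t b) + 1 := min_le_left _ _
      have h7 : ((min (3 * (s b + t b) + 1) Y : ℕ) : ℝ) ≤ ((3 * (s b + t b) + 1 : ℕ) : ℝ) :=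
        Nat.cast_le.2 this
      push_cast at h7 ⊢
      exact h7
    calc (((min (3 * (s b + t b) + 1) Y : ℕ) : ℝ) + ((min (3 * (s b + t b) + 1) Y : ℕ) : ℝ)) /
          (c * Real.log X ^ k) ≤ (8 * ((s b : ℝ) + t b)) / (c * Real.log X ^ k) := by
          apply div_le_div_of_nonneg_right _ (by positivity)
          linarith
      _ = 8 / (c * κ) * (κ * (s b + t b) / Real.log X ^ k) := by
          field_simp
      _ ≤ _ := mul_le_mul_of_nonneg_left h4.2.2.2 (by positivity)
  refine h2.trans ((sum_le_sum h3).trans ?_)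
  rw [← mul_sum]
  apply mul_le_mul_of_nonneg_left _ (by positivity)
  have h4 : ∑ b ∈ u, N O (b - s b) (b + t b) ≤ N O (X - Y) (X + 2 * Y) := by
    unfold N
    rw [← card_biUnion]
    · apply card_le_card
      intro n hn
      rw [mem_biUnion] at hn
      obtain ⟨b, hb, hn⟩ := hn
      rw [mem_filter, mem_Ioc] at hn ⊢
      have h5 := hE b (hu hb)
      have h6 := hP b (hu hb)
      exact ⟨⟨by omega, by omega⟩, hn.2⟩
    · intro b hb b' hb' hne
      have h5 := hd b hb b' hb' hne
      show Disjoint _ _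
      rw [disjoint_left] at h5 ⊢
      intro n hn hn'
      exact h5 (mem_filter.1 hn).1 (mem_filter.1 hn').1
  exact_mod_cast h4

end Pool.Agent.Y751.SW
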