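import Pool.Agent.Y751.SW.Main
import Pool.Agent.TH977.PW.Inst
import Pool.Agent.Y677.RSZ.FinInst

/-!
# All windows around almost all elements: systems of linear forms
-/

set_option autoImplicit false

open Finset Filter

namespace Pool.Agent.Y751.SW

open Pool.Agent.TH977.PW (N N_mono Irregular RightOrder badScales)
open Pool.Agent.Y677.RSZ (InProg Outside)

/-- The elements of `A` with this property. -/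
def Nice (A : Set ℕ) (k l : ℕ) (c η : ℝ) (B X Y : ℕ) : Set ℕ :=
  {m | m ∈ A ∧ Good A k l c η B X Y m}

open Classical in
theorem N_split (A : Set ℕ) (k l : ℕ) (c η : ℝ) (B X Y a b : ℕ) :
    N A a b ≤ N (Nice A k l c η B X Y) a b + N (Bad A k l c η B X Y) a b := by
  unfold N
  refine (card_le_card ?_).trans (card_union_le _ _)
  intro m hm
  rw [mem_filter] at hm
  rw [mem_union, mem_filter, mem_filter]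
  by_cases h : Good A k l c η B X Y m
  · exact Or.inl ⟨hm.1, hm.2, h⟩
  · exact Or.inr ⟨hm.1, hm.2, h⟩

/-- with the existence of nice points of the set of the almost primes -/
theorem full (R Al : ℕ → Set ℕ) (hAR : ∀ r, Al r ⊆ R r) (k : ℕ) (θ : ℝ) (hθ : 0 < θ) (E' : ℕ → Prop)
    (hF : ∃ r0 : ℕ, 2 ≤ r0 ∧ ∀ r : ℕ, r0 ≤ r →
      (∃ κ : ℝ, 0 < κ ∧ ∀ᶠ X : ℕ in atTop, ∀ Y : ℕ, (X : ℝ) ^ θ ≤ Y → Y ≤ X →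
        κ * Y / Real.log X ^ k ≤ N (Al r) X (X + Y)) ∧
      ∀ ε : ℝ, 0 < ε → ∃ c : ℝ, 0 < c ∧ ∀ δ : ℝ, 0 < δ → ∃ B : ℕ,
        ∀ᶠ X : ℕ in atTop, ∀ Y : ℕ, (X : ℝ) ^ θ ≤ Y → 2 * Y ≤ X →
          ∀ A : Set ℕ, A ⊆ R r →
          (N (Irregular A k c δ B X Y) X (X + Y) : ℝ) ≤ ε * Y / Real.log X ^ k)
    (hN : ∃ r0 : ℕ, 2 ≤ r0 ∧ ∀ r : ℕ, r0 ≤ r → E' r ∧
      ∀ l : ℕ, 2 ≤ l → ∀ ε : ℝ, 0 < ε → ∃ B : ℕ, ∀ᶠ X : ℕ in atTop, ∀ Y : ℕ,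
        (X : ℝ) ^ θ ≤ Y → Y ≤ X → ∀ A : Set ℕ, A ⊆ R r →
          (N (Outside A l (Real.log X ^ B) X (X + Y)) X (X + Y) : ℝ) ≤ ε * Y / Real.log X ^ k) :
    ∃ r0 : ℕ, 2 ≤ r0 ∧ ∀ r : ℕ, r0 ≤ r →
      (∃ κ c : ℝ, 0 < κ ∧ 0 < c ∧ ∀ (l : ℕ) (η : ℝ), 2 ≤ l → 0 < η → ∃ B : ℕ,
        ∀ᶠ X : ℕ in atTop, ∀ Y : ℕ, (X : ℝ) ^ θ ≤ Y → 4 * Y ≤ X →
          κ * Y / Real.log X ^ k ≤ N (Nice (Al r) k l c η B X Y) X (X + Y)) ∧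
      ∀ ε : ℝ, 0 < ε → ∃ c : ℝ, 0 < c ∧ ∀ (l : ℕ) (η : ℝ), 2 ≤ l → 0 < η → ∃ B : ℕ,
        ∀ᶠ X : ℕ in atTop, ∀ Y : ℕ, (X : ℝ) ^ θ ≤ Y → 4 * Y ≤ X → ∀ A : Set ℕ, A ⊆ R r →
          (N (Bad A k l c η B X Y) X (X + Y) : ℝ) ≤ ε * Y / Real.log X ^ k := by
  obtain ⟨r0, hr0, h⟩ := pack R k θ hθ _ E' hF hN
  refine ⟨r0, hr0, fun r hr => ?_⟩
  obtain ⟨⟨κ, hκ, h1⟩, h2⟩ := h r hr
  refine ⟨?_, h2⟩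
  obtain ⟨c, hc, h3⟩ := h2 (κ / 2) (by positivity)
  refine ⟨κ / 2, c, by positivity, hc, fun l η hl hη => ?_⟩
  obtain ⟨B, h4⟩ := h3 l η hl hη
  refine ⟨B, ?_⟩
  filter_upwards [h1, h4] with X hX1 hX4 Y hY1 hY2
  have h5 := hX1 Y hY1 (by omega)
  have h6 := hX4 Y hY1 hY2 (Al r) (hAR r)
  have h7 : (N (Al r) X (X + Y) : ℝ) ≤ N (Nice (Al r) k l c η B X Y) X (X + Y) +
      N (Bad (Al r) k l c η B X Y) X (X + Y) := by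
    exact_mod_cast N_split (Al r) k l c η B X Y X (X + Y)
  have h8 : κ * (Y : ℝ) / Real.log X ^ k =
      κ / 2 * Y / Real.log X ^ k + κ / 2 * Y / Real.log X ^ k := by ring
  linarith

/-- linear forms -/
theorem lin_full {ι : Type} [Fintype ι] [Nonempty ι] (a : ι → ℕ) (b : ι → ℤ) (ha : ∀ i, 0 < a i)
    (hab : ∀ i, IsCoprime (a i : ℤ) (b i)) (hinj : ∀ i j, a i = a j → b i = b j → i = j)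
    (hadm : ∀ p : ℕ, p.Prime → ∃ m : ℕ, ∀ i, ¬ (p : ℤ) ∣ (a i : ℤ) * m + b i)
    (R Al : ℕ → Set ℕ) (hAR : ∀ r, Al r ⊆ R r) (k : ℕ) (hk : Fintype.card ι = k)
    (hR : ∀ r m : ℕ, 2 ≤ r → m ∈ R r → ∀ i, ∀ p : ℕ, p.Prime → (p : ℤ) ∣ (a i : ℤ) * m + b i →
      (m : ℝ) ^ (1 / (r : ℝ)) < (p : ℝ))
    (hAl : ∀ r m : ℕ, 2 ≤ r → (∀ i, ∀ p : ℕ, p.Prime → (p : ℤ) ∣ (a i : ℤ) * m + b i →
      (m : ℝ) ^ (1 / (r : ℝ)) < (p : ℝ)) →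
      (∀ i, ((a i : ℤ) * m + b i).natAbs.primeFactorsList.length ≤ r) → m ∈ Al r)
    (θ : ℝ) (hθ : 0 < θ) (hθ1 : θ ≤ 1) :
    ∃ r0 : ℕ, 2 ≤ r0 ∧ ∀ r : ℕ, r0 ≤ r →
      (∃ κ c : ℝ, 0 < κ ∧ 0 < c ∧ ∀ (l : ℕ) (η : ℝ), 2 ≤ l → 0 < η → ∃ B : ℕ,
        ∀ᶠ X : ℕ in atTop, ∀ Y : ℕ, (X : ℝ) ^ θ ≤ Y → 4 * Y ≤ X →
          κ * Y / Real.log X ^ k ≤ N (Nice (Al r) k l c η B X Y) X (X + Y)) ∧
      ∀ ε : ℝ, 0 < ε → ∃ c : ℝ, 0 < c ∧ ∀ (l : ℕ) (η : ℝ), 2 ≤ l → 0 < η → ∃ B : ℕ,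
        ∀ᶠ X : ℕ in atTop, ∀ Y : ℕ, (X : ℝ) ^ θ ≤ Y → 4 * Y ≤ X → ∀ A : Set ℕ, A ⊆ R r →
          (N (Bad A k l c η B X Y) X (X + Y) : ℝ) ≤ ε * Y / Real.log X ^ k :=
  full R Al hAR k θ hθ _
    (Pool.Agent.TH977.PW.final_lin a b ha hab hinj hadm R Al k hk hR hAl θ hθ hθ1)
    (Pool.Agent.Y677.RSZ.narrow_lin a b ha hab hinj hadm R Al k hk hR hAl θ hθ hθ1)

/-- tuples -/
theorem tuple_full (H : Finset ℕ) (hne : H.Nonempty)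
    (hadm : ∀ p : ℕ, p.Prime → ∃ m : ℕ, ∀ h ∈ H, ¬ p ∣ m + h)
    (R Al : ℕ → Set ℕ) (hAR : ∀ r, Al r ⊆ R r) (k : ℕ) (hk : H.card = k)
    (hR : ∀ r m : ℕ, 2 ≤ r → m ∈ R r → ∀ h ∈ H, ∀ p : ℕ, p.Prime → p ∣ m + h →
      (m : ℝ) ^ (1 / (r : ℝ)) < (p : ℝ))
    (hAl : ∀ r m : ℕ, 2 ≤ r → (∀ h ∈ H, ∀ p : ℕ, p.Prime →
      p ∣ m + h → (m : ℝ) ^ (1 / (r : ℝ)) < (p : ℝ)) →
      (∀ h ∈ H, (m + h).primeFactorsList.length ≤ r) → m ∈ Al r)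
    (θ : ℝ) (hθ : 0 < θ) (hθ1 : θ ≤ 1) :
    ∃ r0 : ℕ, 2 ≤ r0 ∧ ∀ r : ℕ, r0 ≤ r →
      (∃ κ c : ℝ, 0 < κ ∧ 0 < c ∧ ∀ (l : ℕ) (η : ℝ), 2 ≤ l → 0 < η → ∃ B : ℕ,
        ∀ᶠ X : ℕ in atTop, ∀ Y : ℕ, (X : ℝ) ^ θ ≤ Y → 4 * Y ≤ X →
          κ * Y / Real.log X ^ k ≤ N (Nice (Al r) k l c η B X Y) X (X + Y)) ∧
      ∀ ε : ℝ, 0 < ε → ∃ c : ℝ, 0 < c ∧ ∀ (l : ℕ) (η : ℝ), 2 ≤ l → 0 < η → ∃ B : ℕ,
        ∀ᶠ X : ℕ in atTop, ∀ Y : ℕ, (X : ℝ) ^ θ ≤ Y → 4 * Y ≤ X → ∀ A : Set ℕ, A ⊆ R r →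
          (N (Bad A k l c η B X Y) X (X + Y) : ℝ) ≤ ε * Y / Real.log X ^ k := by
  have : Nonempty {x // x ∈ H} := ⟨⟨hne.choose, hne.choose_spec⟩⟩
  have hcast : ∀ (t h : ℕ), ((1 : ℕ) : ℤ) * (t : ℤ) + ((h : ℕ) : ℤ) = ((t + h : ℕ) : ℤ) := by
    intro t h
    push_cast
    ring
  exact lin_full (fun _ : {x // x ∈ H} => 1)
    (fun i : {x // x ∈ H} => ((i.1 : ℕ) : ℤ)) (fun _ => one_pos)
    (fun i => by rw [Nat.cast_one]; exact isCoprime_one_left)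
    (fun i j _ hij => Subtype.ext (by exact_mod_cast hij))
    (fun p hp => by
      obtain ⟨m, hm⟩ := hadm p hp
      refine ⟨m, fun i hi => hm i.1 i.2 ?_⟩
      rw [hcast, Int.natCast_dvd_natCast] at hi
      exact hi)
    R Al hAR k (by rw [Fintype.card_coe, hk])
    (fun r m hr hm i p hp hd => hR r m hr hm i.1 i.2 p hp (by
      rw [hcast, Int.natCast_dvd_natCast] at hd
      exact hd))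
    (fun r m hr h1 h2 => hAl r m hr (fun h hh p hp hd => h1 ⟨h, hh⟩ p hp (by
      rw [hcast, Int.natCast_dvd_natCast]
      exact hd)) (fun h hh => by
      have h3 := h2 ⟨h, hh⟩
      rw [hcast, Int.natAbs_natCast] at h3
      exact h3)) θ hθ hθ1

end Pool.Agent.Y751.SW
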