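import Pool.Agent.Y751.SW.Gen

/-!
# All windows around almost all elements of arbitrary subsets of sifted sets: the general theorem
-/

set_option autoImplicit false

open Finset Filter

namespace Pool.Agent.Y751.SW

open Pool.Agent.TH977.PW (N N_mono Irregular RightOrder badScales)
open Pool.Agent.Y677.RSZ (InProg Outside)

open Classical in
theorem scales (R : Set ℕ) (k l : ℕ) (θ : ℝ)
    (hN1 : ∀ ε : ℝ, 0 < ε → ∃ B : ℕ, ∀ᶠ X : ℕ in atTop, ∀ Y : ℕ,
      (X : ℝ) ^ θ ≤ Y → Y ≤ X → ∀ A : Set ℕ, A ⊆ R →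
        (N (Outside A l (Real.log X ^ B) X (X + Y)) X (X + Y) : ℝ) ≤ ε * Y / Real.log X ^ k)
    (hθ : 0 < θ) (ε c η : ℝ) (hε : 0 < ε) (hc : 0 < c) (hη : 0 < η)
    (hN2 : ∃ B : ℕ, ∀ᶠ X : ℕ in atTop, ∀ Y : ℕ, (X : ℝ) ^ θ ≤ Y → 2 * Y ≤ X →
        ∀ A : Set ℕ, A ⊆ R →
        (N (Irregular A k c η B X Y) X (X + Y) : ℝ) ≤ ε / 2 * Y / Real.log X ^ k) :
    ∃ B : ℕ, ∀ᶠ X : ℕ in atTop, ∀ Y : ℕ, (X : ℝ) ^ θ ≤ Y → 4 * Y ≤ X → ∀ A : Set ℕ, A ⊆ R →
      (N (Bad A k l c η B X Y) X (X + Y) : ℝ) ≤ ε * Y / Real.log X ^ k := by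
  obtain ⟨B₁, h2⟩ := hN2
  obtain ⟨B₀, h1⟩ := hN1 (ε * η * c ^ 2 / (96 * 2 ^ k)) (by positivity)
  obtain ⟨N₀, hN₀⟩ := eventually_atTop.1 h1
  refine ⟨B₀ + k + 1 + B₁, ?_⟩
  filter_upwards [h2, eventually_ge_atTop (2 * N₀), eventually_ge_atTop 4,
    (Real.tendsto_log_atTop.comp tendsto_natCast_atTop_atTop).eventually_ge_atTop
      (max (max (1 / c) 1) (4 * l / (η * c)))] with X hX hXN hX4 hl Y hY1 hY2 A hA
  simp only [Function.comp_apply] at hl
  have hlc : 1 / c ≤ Real.log X := ((le_max_left _ _).trans (le_max_left _ _)).trans hl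
  have hl1 : 1 ≤ Real.log X := ((le_max_right _ _).trans (le_max_left _ _)).trans hl
  have hll : 4 * l / (η * c) ≤ Real.log X := (le_max_right _ _).trans hl
  have hl0 : 0 < Real.log X := by linarith
  have hlk : 0 < Real.log X ^ k := by positivity
  have hXr : (4 : ℝ) ≤ X := by exact_mod_cast hX4
  obtain ⟨L, hLdef⟩ : ∃ L : ℝ, L = Real.log X ^ (B₀ + k + 1 + B₁) := ⟨_, rfl⟩
  -- long windows
  have hlong : Real.log X ^ k ≤ c * L := by
    have h4 : 1 ≤ c * Real.log X := by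
      rw [div_le_iff₀ hc] at hlc
      linarith
    calc Real.log X ^ k = Real.log X ^ k * 1 := (mul_one _).symm
      _ ≤ Real.log X ^ k * (c * Real.log X) := mul_le_mul_of_nonneg_left h4 hlk.le
      _ = c * Real.log X ^ (k + 1) := by ring
      _ ≤ c * L := by
          rw [hLdef]
          exact mul_le_mul_of_nonneg_left (pow_le_pow_right₀ hl1 (by omega)) hc.le
  have hL1 : 1 ≤ L := by
    rw [hLdef]
    exact one_le_pow₀ hl1
  rcases lt_or_ge (2 * (Y : ℝ)) L with hLY | hLY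
  · -- no windows
    have h0 : N (Bad A k l c η (B₀ + k + 1 + B₁) X Y) X (X + Y) ≤
        N (Irregular A k c η B₁ X Y) X (X + Y) := by
      apply N_mono
      rintro m _ _ ⟨h1, hm⟩
      refine ⟨h1, fun h => hm ⟨?_, h.2.trans (by omega)⟩⟩
      intro s t hs ht hst
      exfalso
      have h3 : (s : ℝ) ≤ Y := by exact_mod_cast hs
      have h4 : (t : ℝ) ≤ Y := by exact_mod_cast ht
      rw [← hLdef] at hst
      linarith
    have h3 := hX Y hY1 (by omega) A hA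
    have h4 : ((N (Bad A k l c η (B₀ + k + 1 + B₁) X Y) X (X + Y) : ℕ) : ℝ) ≤
        N (Irregular A k c η B₁ X Y) X (X + Y) := Nat.cast_le.2 h0
    refine h4.trans (h3.trans ?_)
    apply div_le_div_of_nonneg_right _ hlk.le
    apply mul_le_mul_of_nonneg_right _ (Nat.cast_nonneg _)
    linarith
  -- the exceptional elements of the large interval
  have hX' : N₀ ≤ X - Y := by omega
  have hsqrt : Real.log X / 2 ≤ Real.log ((X - Y : ℕ) : ℝ) := by
    have h3 : (X : ℝ) / 2 ≤ ((X - Y : ℕ) : ℝ) := by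
      have h4 : X ≤ 2 * (X - Y) := by omega
      have h5 : (X : ℝ) ≤ ((2 * (X - Y) : ℕ) : ℝ) := Nat.cast_le.2 h4
      push_cast at h5
      push_cast
      linarith
    have h6 : Real.sqrt X ≤ (X : ℝ) / 2 := by
      rw [Real.sqrt_le_left (by linarith)]
      nlinarith
    calc Real.log X / 2 = Real.log (Real.sqrt X) := (Real.log_sqrt (by linarith)).symm
      _ ≤ _ := Real.log_le_log (Real.sqrt_pos.2 (by linarith)) (h6.trans h3)
  have hle : Real.log ((X - Y : ℕ) : ℝ) ≤ Real.log X := by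
    apply Real.log_le_log
    · have : 0 < X - Y := by omega
      exact_mod_cast this
    · have : X - Y ≤ X := Nat.sub_le _ _
      exact_mod_cast this
  have hl0' : 0 ≤ Real.log ((X - Y : ℕ) : ℝ) := by linarith
  have hO := hN₀ (X - Y) hX' (3 * Y) (by
      refine le_trans (Real.rpow_le_rpow (Nat.cast_nonneg _) ?_ hθ.le) (hY1.trans ?_)
      · have : X - Y ≤ X := Nat.sub_le _ _
        exact_mod_cast this
      · have : Y ≤ 3 * Y := by omega
        exact_mod_cast this) (by omega) A hA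
  have heq : X - Y + 3 * Y = X + 2 * Y := by omega
  rw [heq] at hO
  obtain ⟨O, hOdef⟩ : ∃ O : Set ℕ,
    O = Outside A l (Real.log ((X - Y : ℕ) : ℝ) ^ B₀) (X - Y) (X + 2 * Y) := ⟨_, rfl⟩
  rw [← hOdef] at hO
  -- the bad elements which are regular
  obtain ⟨E, hE⟩ : ∃ E : Finset ℕ, E = (Ioc X (X + Y)).filter (fun m =>
      (m ∈ A ∧ ¬ Good A k l c η (B₀ + k + 1 + B₁) X Y m) ∧ m ∉ Irregular A k c η B₁ X Y) := ⟨_, rfl⟩
  have hsplit : (N (Bad A k l c η (B₀ + k + 1 + B₁) X Y) X (X + Y) : ℝ) ≤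
      N (Irregular A k c η B₁ X Y) X (X + Y) + E.card := by
    have : N (Bad A k l c η (B₀ + k + 1 + B₁) X Y) X (X + Y) ≤
        N (Irregular A k c η B₁ X Y) X (X + Y) + E.card := by
      unfold N
      refine le_trans (card_le_card ?_) (card_union_le _ _)
      intro m hm
      rw [mem_filter] at hm
      rw [mem_union, mem_filter, hE, mem_filter]
      by_cases h : m ∈ Irregular A k c η B₁ X Y
      · exact Or.inl ⟨hm.1, h⟩
      · exact Or.inr ⟨hm.1, hm.2, h⟩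
    exact_mod_cast this
  have hEc := maximal A O k c (η * c / 2) L X Y hc (by positivity) hl1 hY2 hL1 hlong hLY E (by
    intro m hm
    rw [hE, mem_filter, mem_Ioc] at hm
    have hreg : RightOrder A k c X Y m ∧ badScales A k c η X Y m ≤ B₁ := by
      by_contra hno
      exact hm.2.2 ⟨hm.2.1.1, hno⟩
    have hro := hreg.1
    refine ⟨hm.1.1, hm.1.2, hm.2.1.1, hro, ?_⟩
    have hbad : ¬ ∀ s t : ℕ, s ≤ Y → t ≤ Y → Real.log X ^ (B₀ + k + 1 + B₁) ≤ (s : ℝ) + t →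
        c * (s + t) / Real.log X ^ k ≤ N A (m - s) (m + t) ∧
        (N A (m - s) (m + t) : ℝ) ≤ (s + t) / (c * Real.log X ^ k) ∧
        (N (Outside A l (Real.log X ^ (B₀ + k + 1 + B₁)) (m - s) (m + t)) (m - s) (m + t) : ℝ) ≤
          η * N A (m - s) (m + t) := fun h => hm.2.1.2 ⟨h, hreg.2.trans (by omega)⟩
    push Not at hbad
    obtain ⟨s, t, hs, ht, hst, hb⟩ := hbad
    rw [← hLdef] at hst
    have hr := hro s t hs ht (hlong.trans (mul_le_mul_of_nonneg_left hst hc.le))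
    have hb' := hb hr.1 hr.2
    refine ⟨s, t, hs, ht, hst, ?_⟩
    have hw := window A l (Real.log ((X - Y : ℕ) : ℝ) ^ B₀) (Real.log X ^ (B₀ + k + 1 + B₁)) (by positivity)
      ((pow_le_pow_left₀ hl0' hle _).trans (pow_le_pow_right₀ hl1 (by omega)))
      (X - Y) (X + 2 * Y) (m - s) (m + t) (by omega) (by omega)
    rw [← hOdef] at hw
    have h3 : 2 * (l * Real.log ((X - Y : ℕ) : ℝ) ^ B₀) ≤ η * c / 2 * (s + t) / Real.log X ^ k := by
      rw [le_div_iff₀ hlk]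
      calc 2 * (l * Real.log ((X - Y : ℕ) : ℝ) ^ B₀) * Real.log X ^ k ≤
            2 * (l * Real.log X ^ B₀) * Real.log X ^ k := by
            have := pow_le_pow_left₀ hl0' hle B₀
            gcongr
        _ = (4 * l) * (Real.log X ^ B₀ * Real.log X ^ k) / 2 := by ring
        _ ≤ (η * c * Real.log X) * (Real.log X ^ B₀ * Real.log X ^ k) / 2 := by
            rw [div_le_iff₀ (by positivity)] at hll
            have h5 : (4 : ℝ) * l ≤ η * c * Real.log X := by linarith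
            gcongr
        _ = η * c / 2 * Real.log X ^ (B₀ + k + 1) := by ring
        _ ≤ η * c / 2 * L := by
            rw [hLdef]
            exact mul_le_mul_of_nonneg_left (pow_le_pow_right₀ hl1 (by omega)) (by positivity)
        _ ≤ η * c / 2 * (s + t) := mul_le_mul_of_nonneg_left hst (by positivity)
    have h4 : η * (c * (s + t) / Real.log X ^ k) ≤ η * N A (m - s) (m + t) :=
      mul_le_mul_of_nonneg_left hr.1 hη.le
    have h5 : η * (c * ((s : ℝ) + t) / Real.log X ^ k) =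
        η * c / 2 * (s + t) / Real.log X ^ k + η * c / 2 * (s + t) / Real.log X ^ k := by ring
    linarith)
  have h5 : (E.card : ℝ) ≤ ε / 2 * Y / Real.log X ^ k := by
    refine hEc.trans ?_
    have h6 : ε * η * c ^ 2 / (96 * 2 ^ k) * ((3 * Y : ℕ) : ℝ) / Real.log ((X - Y : ℕ) : ℝ) ^ k ≤
        ε * η * c ^ 2 / (96 * 2 ^ k) * ((3 * Y : ℕ) : ℝ) / (Real.log X / 2) ^ k := by
      apply div_le_div_of_nonneg_left (by positivity) (by positivity)
      exact pow_le_pow_left₀ (by positivity) hsqrt k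
    calc 8 / (c * (η * c / 2)) * (N O (X - Y) (X + 2 * Y) : ℝ) ≤
          8 / (c * (η * c / 2)) * (ε * η * c ^ 2 / (96 * 2 ^ k) * ((3 * Y : ℕ) : ℝ) /
            (Real.log X / 2) ^ k) := mul_le_mul_of_nonneg_left (hO.trans h6) (by positivity)
      _ = ε / 2 * Y / Real.log X ^ k := by
          push_cast
          rw [div_pow]
          field_simp
          ring
  have h6 := hX Y hY1 (by omega) A hA
  refine hsplit.trans ?_
  have h7 : ε * (Y : ℝ) / Real.log X ^ k =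
      ε / 2 * Y / Real.log X ^ k + ε / 2 * Y / Real.log X ^ k := by ring
  linarith

/-- the family version -/
theorem pack (R : ℕ → Set ℕ) (k : ℕ) (θ : ℝ) (hθ : 0 < θ) (E E' : ℕ → Prop)
    (hF : ∃ r0 : ℕ, 2 ≤ r0 ∧ ∀ r : ℕ, r0 ≤ r → E r ∧
      ∀ ε : ℝ, 0 < ε → ∃ c : ℝ, 0 < c ∧ ∀ δ : ℝ, 0 < δ → ∃ B : ℕ,
        ∀ᶠ X : ℕ in atTop, ∀ Y : ℕ, (X : ℝ) ^ θ ≤ Y → 2 * Y ≤ X →
          ∀ A : Set ℕ, A ⊆ R r →
          (N (Irregular A k c δ B X Y) X (X + Y) : ℝ) ≤ ε * Y / Real.log X ^ k)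
    (hN : ∃ r0 : ℕ, 2 ≤ r0 ∧ ∀ r : ℕ, r0 ≤ r → E' r ∧
      ∀ l : ℕ, 2 ≤ l → ∀ ε : ℝ, 0 < ε → ∃ B : ℕ, ∀ᶠ X : ℕ in atTop, ∀ Y : ℕ,
        (X : ℝ) ^ θ ≤ Y → Y ≤ X → ∀ A : Set ℕ, A ⊆ R r →
          (N (Outside A l (Real.log X ^ B) X (X + Y)) X (X + Y) : ℝ) ≤ ε * Y / Real.log X ^ k) :
    ∃ r0 : ℕ, 2 ≤ r0 ∧ ∀ r : ℕ, r0 ≤ r → E r ∧
      ∀ ε : ℝ, 0 < ε → ∃ c : ℝ, 0 < c ∧ ∀ (l : ℕ) (η : ℝ), 2 ≤ l → 0 < η → ∃ B : ℕ,
        ∀ᶠ X : ℕ in atTop, ∀ Y : ℕ, (X : ℝ) ^ θ ≤ Y → 4 * Y ≤ X → ∀ A : Set ℕ, A ⊆ R r →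
          (N (Bad A k l c η B X Y) X (X + Y) : ℝ) ≤ ε * Y / Real.log X ^ k := by
  obtain ⟨ra, hra, ha⟩ := hF
  obtain ⟨rb, hrb, hb⟩ := hN
  refine ⟨max ra rb, hra.trans (le_max_left _ _), fun r hr => ?_⟩
  obtain ⟨h1, h2⟩ := ha r ((le_max_left _ _).trans hr)
  obtain ⟨_, h3⟩ := hb r ((le_max_right _ _).trans hr)
  refine ⟨h1, fun ε hε => ?_⟩
  obtain ⟨c, hc, h4⟩ := h2 (ε / 2) (by positivity)
  exact ⟨c, hc, fun l η hl hη => scales (R r) k l θ (h3 l hl) hθ ε c η hε hc hη (h4 η hη)⟩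

end Pool.Agent.Y751.SW
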