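import Pool.Agent.Y751.SW.Lin
import Pool.Agent.Y677.RSZ.FinQuad

/-!
# All windows around almost all elements: one quadratic polynomial
-/

set_option autoImplicit false

open Finset Filter

namespace Pool.Agent.Y751.SW

open Pool.Agent.TH977.PW (N N_mono Irregular RightOrder badScales)
open Pool.Agent.Y677.RSZ (InProg Outside)

theorem quad_full (a b c : ℤ) (ha : 0 < a)
    (hg : ∀ p : ℕ, p.Prime → ¬ ((p : ℤ) ∣ a ∧ (p : ℤ) ∣ b ∧ (p : ℤ) ∣ c))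
    (hD : ¬ IsSquare (b ^ 2 - 4 * a * c)) (hpar : ¬ (Even (a + b) ∧ Even c))
    (R Al : ℕ → Set ℕ) (hAR : ∀ r, Al r ⊆ R r)
    (hR : ∀ r m : ℕ, 2 ≤ r → m ∈ R r → ∀ p : ℕ, p.Prime → (p : ℤ) ∣ a * (m : ℤ) ^ 2 + b * m + c →
      (m : ℝ) ^ (1 / (r : ℝ)) < (p : ℝ))
    (hAl : ∀ r m : ℕ, 2 ≤ r → (∀ p : ℕ, p.Prime → (p : ℤ) ∣ a * (m : ℤ) ^ 2 + b * m + c →
      (m : ℝ) ^ (1 / (r : ℝ)) < (p : ℝ)) →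
      (a * (m : ℤ) ^ 2 + b * m + c).natAbs.primeFactorsList.length ≤ r → m ∈ Al r)
    (θ : ℝ) (hθ : 0 < θ) (hθ1 : θ ≤ 1) :
    ∃ r0 : ℕ, 2 ≤ r0 ∧ ∀ r : ℕ, r0 ≤ r →
      (∃ κ c : ℝ, 0 < κ ∧ 0 < c ∧ ∀ (l : ℕ) (η : ℝ), 2 ≤ l → 0 < η → ∃ B : ℕ,
        ∀ᶠ X : ℕ in atTop, ∀ Y : ℕ, (X : ℝ) ^ θ ≤ Y → 4 * Y ≤ X →
          κ * Y / Real.log X ^ 1 ≤ N (Nice (Al r) 1 l c η B X Y) X (X + Y)) ∧
      ∀ ε : ℝ, 0 < ε → ∃ c : ℝ, 0 < c ∧ ∀ (l : ℕ) (η : ℝ), 2 ≤ l → 0 < η → ∃ B : ℕ,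
        ∀ᶠ X : ℕ in atTop, ∀ Y : ℕ, (X : ℝ) ^ θ ≤ Y → 4 * Y ≤ X → ∀ A : Set ℕ, A ⊆ R r →
          (N (Bad A 1 l c η B X Y) X (X + Y) : ℝ) ≤ ε * Y / Real.log X ^ 1 := by
  obtain ⟨r0, hr0, h⟩ := Pool.Agent.Y175.PW.final_quad a b c ha hg hD hpar R Al hR hAl θ hθ hθ1
  exact full R Al hAR 1 θ hθ _ ⟨r0, hr0, fun r hr => by
      have h1 := h r hr
      simpa only [pow_one] using h1⟩
    (Pool.Agent.Y677.RSZ.narrow_quad a b c ha hg hD hpar R Al hR hAl θ hθ hθ1)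

end Pool.Agent.Y751.SW
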